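import Mathlib

set_option autoImplicit false

/-!
# Minimal slice rank decompositions can involve quadratically many vectors

For every `d ≥ 3`, every field and every `m ≥ 1` there is a tensor of order `d` of slice rank
`k = 2 m - 1` such that the vectors `u_{j, i}` of its slice rank decompositions of length `k` do not
lie in subspaces of dimension less than `m (m + 1) / 2`.

Construction. Let `G` be the graph with the vertices `a_i`, `b_i` (`0 ≤ i < m`) and `c_l`
(`1 ≤ l < m`), and the edges `a_i b_j` (`i ≤ j`), `a_l c_l` and `b_{l-1} c_l`. Its vertex cover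
number is `2 m - 1`, and it becomes `2 m - 2` when an edge `a_i b_j` is removed. The tensor is the
sum over the edges of `G` of the monomials whose coordinates `0`, `1`, `2` are the ends of the edge
of type `a`, `b`, `c`, all the other coordinates being private to the edge. Its support is an
antichain for suitable orders, so its slice rank is the covering number of its support.
-/

namespace Pool.Agent.Results.MP_626f3c_co.QuadraticMany

open Finset Module

/-- A tensor of order `d` over `F`, that is, a map `[n_1] × … × [n_d] → F`. -/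
abbrev Tensor (F : Type*) {d : ℕ} (n : Fin d → ℕ) := (∀ j, Fin (n j)) → F

/-- A slice rank decomposition of length `k` of the tensor `T`: nonnegative integers `s_j` with sum
`k`, maps `u_{j,i} : [n_j] → F` and `v_{j,i} : ∏_{l ≠ j} [n_l] → F` (`i < s_j`) such that
`T(x) = ∑_j ∑_i u_{j,i}(x_j) v_{j,i}(x without the j-th coordinate)`. -/
structure SliceDecomp {F : Type*} [Field F] {d : ℕ} {n : Fin d → ℕ} (T : Tensor F n) (k : ℕ) where
  /-- the numbers `s_j` -/
  s : Fin d → ℕ
  /-- they sum to the length -/
  sum_s : ∑ j, s j = k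
  /-- the vectors `u_{j,i}` -/
  u : ∀ j, Fin (s j) → Fin (n j) → F
  /-- the maps `v_{j,i}` of the remaining coordinates -/
  v : ∀ j, Fin (s j) → (∀ l : {l : Fin d // l ≠ j}, Fin (n l)) → F
  /-- the identity -/
  eq : ∀ x, T x = ∑ j, ∑ i, u j i (x j) * v j i (fun l => x l)

/-- The slice rank of `T`: the least length of a slice rank decomposition. -/
noncomputable def sliceRank {F : Type*} [Field F] {d : ℕ} {n : Fin d → ℕ} (T : Tensor F n) : ℕ :=
  sInf {k | Nonempty (SliceDecomp T k)}

/-! ### Decompositions from covers of the support -/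

section cover

variable {F : Type*} [Field F] {d : ℕ} {n : Fin d → ℕ}

open Classical in
/-- A cover of the support of `T` by hyperplanes `x_j = a`, `a ∈ S j`, gives a slice rank
decomposition in which the vectors `u` are the corresponding coordinate vectors. -/
lemma exists_decomp_of_cover (T : Tensor F n) (S : ∀ j, Finset (Fin (n j)))
    (hS : ∀ x, T x ≠ 0 → ∃ j, x j ∈ S j) :
    ∃ D : SliceDecomp T (∑ j, (S j).card), ∀ j, ∀ a ∈ S j, ∃ i, D.u j i = Pi.single a 1 := by
  -- a coordinate in which `x` is covered
  have hc : ∀ x, ∃ j : Option (Fin d), ∀ i, T x ≠ 0 → (j = some i → x i ∈ S i) ∧ j ≠ none := by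
    intro x
    by_cases h : T x ≠ 0
    · obtain ⟨j, hj⟩ := hS x h
      refine ⟨some j, fun i _ => ⟨fun hi => ?_, by simp⟩⟩
      obtain rfl : j = i := by simpa using hi
      exact hj
    · exact ⟨none, fun i h' => absurd h' h⟩
  choose c hc using hc
  let ext : ∀ j : Fin d, Fin (n j) → (∀ l : {l : Fin d // l ≠ j}, Fin (n l)) → ∀ l, Fin (n l) :=
    fun j a r l => if h : l = j then h ▸ a else r ⟨l, h⟩
  have hext : ∀ (j : Fin d) (x : ∀ l, Fin (n l)), ext j (x j) (fun l => x l) = x := by
    intro j x
    funext l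
    simp only [ext]
    split_ifs with h
    · subst h; rfl
    · rfl
  let g : ∀ j, Fin (S j).card → Fin (n j) := fun j => (S j).orderEmbOfFin rfl
  refine ⟨⟨fun j => (S j).card, rfl, fun j i => Pi.single (g j i) 1,
    fun j i r => if c (ext j (g j i) r) = some j then T (ext j (g j i) r) else 0, ?_⟩, ?_⟩
  · intro x
    have h1 : ∀ j, ∑ i, (Pi.single (g j i) (1 : F) : Fin (n j) → F) (x j) *
        (if c (ext j (g j i) (fun l => x l)) = some j then T (ext j (g j i) (fun l => x l)) else 0)
        = if x j ∈ S j then (if c x = some j then T x else 0) else 0 := by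
      intro j
      have h2 : ∀ i, (Pi.single (g j i) (1 : F) : Fin (n j) → F) (x j) *
          (if c (ext j (g j i) (fun l => x l)) = some j then
            T (ext j (g j i) (fun l => x l)) else 0)
          = if g j i = x j then (if c x = some j then T x else 0) else 0 := by
        intro i
        by_cases h : g j i = x j
        · rw [if_pos h, h, hext]
          simp
        · rw [if_neg h, Pi.single_eq_of_ne (fun h' => h h'.symm), zero_mul]
      rw [Finset.sum_congr rfl fun i _ => h2 i]
      by_cases h : x j ∈ S j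
      · rw [if_pos h]
        have : x j ∈ Set.range ((S j).orderEmbOfFin rfl) := by
          rw [Finset.range_orderEmbOfFin]; exact h
        obtain ⟨i, hi⟩ := this
        rw [Finset.sum_eq_single i]
        · rw [if_pos hi]
        · intro b _ hb
          rw [if_neg]
          intro h'
          exact hb (((S j).orderEmbOfFin rfl).injective (h'.trans hi.symm))
        · simp
      · rw [if_neg h]
        refine Finset.sum_eq_zero fun i _ => ?_
        rw [if_neg]
        intro h'
        exact h (h' ▸ Finset.orderEmbOfFin_mem (S j) rfl i)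
    rw [Finset.sum_congr rfl fun j _ => h1 j]
    by_cases h0 : T x = 0
    · simp [h0]
    · rcases hcx : c x with _ | j
      · have hd : 0 < d := by
          obtain ⟨j, _⟩ := hS x h0
          exact lt_of_le_of_lt (Nat.zero_le _) j.2
        exact absurd hcx (hc x ⟨0, hd⟩ h0).2
      · rw [Finset.sum_eq_single j]
        · rw [if_pos ((hc x j h0).1 hcx), if_pos rfl]
        · intro b _ hb
          have : ¬ (some j = some b) := fun h => hb (by simpa using h.symm)
          simp [this]
        · simp
  · intro j a ha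
    have : a ∈ Set.range ((S j).orderEmbOfFin rfl) := by
      rw [Finset.range_orderEmbOfFin]; exact ha
    obtain ⟨i, hi⟩ := this
    exact ⟨i, by simp only [g]; rw [hi]⟩

end cover

/-! ### The lower bound for tensors whose support is an antichain -/

section lower

variable {F : Type*} [Field F]

/-- For vectors `u_1, …, u_s` in `F ^ n` there is a set `S` of at most `s` coordinates such that
every coordinate outside of `S` is the leading coordinate of a vector orthogonal to all `u_i`. -/
lemma exists_leading {n s : ℕ} (u : Fin s → Fin n → F) :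
    ∃ S : Finset (Fin n), S.card ≤ s ∧ ∀ x ∉ S, ∃ w : Fin n → F,
      (∀ i, ∑ y, u i y * w y = 0) ∧ w x ≠ 0 ∧ ∀ y < x, w y = 0 := by
  classical
  let L : (Fin n → F) →ₗ[F] (Fin s → F) :=
    LinearMap.pi fun i => ∑ y, u i y • LinearMap.proj y
  have hL : ∀ w i, L w i = ∑ y, u i y * w y := by
    intro w i
    simp [L]
  let P : Finset (Fin n) := univ.filter fun x => ∃ w ∈ LinearMap.ker L, w x ≠ 0 ∧ ∀ y < x, w y = 0
  refine ⟨Pᶜ, ?_, ?_⟩
  · -- the restriction to the coordinates in `P` is injective on the kernel
    let R : LinearMap.ker L →ₗ[F] (P → F) :=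
      { toFun := fun w x => (w : Fin n → F) x
        map_add' := fun _ _ => rfl
        map_smul' := fun _ _ => rfl }
    have hR : Function.Injective R := by
      rw [← LinearMap.ker_eq_bot, LinearMap.ker_eq_bot']
      intro w hw
      by_contra hne
      have hne' : ∃ x, (w : Fin n → F) x ≠ 0 := by
        by_contra hall
        push Not at hall
        exact hne (Subtype.ext (funext hall))
      let X : Finset (Fin n) := univ.filter fun x => (w : Fin n → F) x ≠ 0
      have hX : X.Nonempty := by
        obtain ⟨x, hx⟩ := hne'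
        exact ⟨x, by simp [X, hx]⟩
      have hmin : X.min' hX ∈ X := X.min'_mem hX
      have h1 : (w : Fin n → F) (X.min' hX) ≠ 0 := by simpa [X] using hmin
      have h2 : X.min' hX ∈ P := by
        simp only [P, Finset.mem_filter, Finset.mem_univ, true_and]
        refine ⟨w, w.2, h1, fun y hy => ?_⟩
        by_contra hy0
        have : y ∈ X := by simp [X, hy0]
        exact absurd (X.min'_le y this) (not_le.2 hy)
      exact h1 (congrFun hw ⟨_, h2⟩)
    have h1 : finrank F (LinearMap.ker L) ≤ P.card := by
      have := LinearMap.finrank_le_finrank_of_injective hR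
      simpa using this
    have h2 := LinearMap.finrank_range_add_finrank_ker L
    have h3 : finrank F (LinearMap.range L) ≤ s := by
      have := Submodule.finrank_le (LinearMap.range L)
      simpa using this
    have h4 : finrank F (Fin n → F) = n := by simp
    rw [Finset.card_compl, Fintype.card_fin]
    omega
  · intro x hx
    simp only [P, Finset.mem_compl, Finset.mem_filter, Finset.mem_univ, true_and, not_not] at hx
    obtain ⟨w, hw, h1, h2⟩ := hx
    refine ⟨w, fun i => ?_, h1, h2⟩
    rw [← hL, LinearMap.mem_ker.1 hw]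
    rfl

/-- If the support of `T` is an antichain, then every slice rank decomposition of length `k` of `T`
gives a cover of the support by `k` coordinate hyperplanes. -/
lemma exists_cover_of_decomp {d : ℕ} {n : Fin d → ℕ} {T : Tensor F n}
    (hT : ∀ x y, T x ≠ 0 → T y ≠ 0 → x ≤ y → x = y) {k : ℕ} (D : SliceDecomp T k) :
    ∃ S : ∀ j, Finset (Fin (n j)), ∑ j, (S j).card ≤ k ∧ ∀ x, T x ≠ 0 → ∃ j, x j ∈ S j := by
  classical
  choose S hS using fun j => exists_leading (D.u j)
  refine ⟨S, ?_, ?_⟩
  · calc ∑ j, (S j).card ≤ ∑ j, D.s j := Finset.sum_le_sum fun j _ => (hS j).1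
      _ = k := D.sum_s
  · intro x hx
    by_contra hcon
    push Not at hcon
    choose w hw using fun j => (hS j).2 (x j) (hcon j)
    have key1 : ∑ y, T y * ∏ j, w j (y j) = T x * ∏ j, w j (x j) := by
      rw [Finset.sum_eq_single x]
      · intro y _ hy
        by_cases h0 : T y = 0
        · rw [h0, zero_mul]
        · have : ¬ x ≤ y := fun h => hy (hT x y hx h0 h).symm
          rw [Pi.le_def] at this
          push Not at this
          obtain ⟨j, hj⟩ := this
          rw [Finset.prod_eq_zero (Finset.mem_univ j) ((hw j).2.2 _ hj), mul_zero]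
      · simp
    have key2 : ∑ y, T y * ∏ j, w j (y j) = 0 := by
      have h1 : ∀ y, T y * ∏ j, w j (y j) =
          ∑ j, ∑ i, (D.u j i (y j) * D.v j i (fun l => y l)) * ∏ l, w l (y l) := by
        intro y
        rw [D.eq y, Finset.sum_mul]
        exact Finset.sum_congr rfl fun j _ => Finset.sum_mul _ _ _
      rw [Finset.sum_congr rfl fun y _ => h1 y, Finset.sum_comm]
      refine Finset.sum_eq_zero fun j _ => ?_
      rw [Finset.sum_comm]
      refine Finset.sum_eq_zero fun i _ => ?_
      rw [← Equiv.sum_comp (Equiv.piSplitAt j (fun l => Fin (n l))).symm, Fintype.sum_prod_type,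
        Finset.sum_comm]
      refine Finset.sum_eq_zero fun r _ => ?_
      have h2 : ∀ a : Fin (n j), (D.u j i (((Equiv.piSplitAt j (fun l => Fin (n l))).symm (a, r)) j)
          * D.v j i (fun l => ((Equiv.piSplitAt j (fun l => Fin (n l))).symm (a, r)) l)) *
          ∏ l, w l (((Equiv.piSplitAt j (fun l => Fin (n l))).symm (a, r)) l) =
          (D.u j i a * w j a) * (D.v j i r * ∏ l : {l // l ≠ j}, w l (r l)) := by
        intro a
        have e1 : ((Equiv.piSplitAt j (fun l => Fin (n l))).symm (a, r)) j = a := by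
          simp [Equiv.piSplitAt]
        have e2 : ∀ l : {l // l ≠ j},
            ((Equiv.piSplitAt j (fun l => Fin (n l))).symm (a, r)) l = r l := by
          intro l
          simp [Equiv.piSplitAt, l.2]
        have e3 : (fun l : {l // l ≠ j} =>
            ((Equiv.piSplitAt j (fun l => Fin (n l))).symm (a, r)) l) = r := funext e2
        have e4 : ∏ l, w l (((Equiv.piSplitAt j (fun l => Fin (n l))).symm (a, r)) l) =
            w j a * ∏ l : {l // l ≠ j}, w l (r l) := by
          rw [Fintype.prod_eq_mul_prod_subtype_ne _ j, e1]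
          congr 1
          exact Finset.prod_congr rfl fun l _ => by rw [e2 l]
        rw [e4, e3, e1]
        ring
      rw [Finset.sum_congr rfl fun a _ => h2 a, ← Finset.sum_mul, (hw j).1 i, zero_mul]
    rw [key1] at key2
    have h3 : ∏ j, w j (x j) ≠ 0 := Finset.prod_ne_zero_iff.2 fun j _ => (hw j).2.1
    exact mul_ne_zero hx h3 key2

end lower

/-! ### The graph -/

/-- The edges of the graph: `(2, i, j)` is the edge `a_i b_j` (`i ≤ j < m`), `(1, l, l)` is the edge
`a_l c_l` (`1 ≤ l < m`) and `(0, l - 1, l)` is the edge `b_{l-1} c_l` (`1 ≤ l < m`). -/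
def Edge (m t i j : ℕ) : Prop :=
  (t = 2 ∧ i ≤ j ∧ j < m) ∨ (t = 1 ∧ i = j ∧ 1 ≤ i ∧ j < m) ∨ (t = 0 ∧ j = i + 1 ∧ j < m)

/-- The first end of an edge; `(0, i)`, `(1, i)`, `(2, i)` are the vertices `a_i`, `b_i`, `c_i`. -/
def end₁ (t i : ℕ) : ℕ × ℕ := (if t = 0 then 1 else 0, i)

/-- The second end of an edge. -/
def end₂ (t j : ℕ) : ℕ × ℕ := (if t = 2 then 1 else 2, j)

/-- Every vertex cover of the graph has at least `2 m - 1` elements. -/
lemma vertexCover_card {m : ℕ} (K : Finset (ℕ × ℕ))
    (hK : ∀ t i j, Edge m t i j → end₁ t i ∈ K ∨ end₂ t j ∈ K) : 2 * m - 1 ≤ K.card := by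
  classical
  have hex : ∃ t, ∀ i, t ≤ i → i < m → (1, i) ∈ K := ⟨m, fun i h1 h2 => absurd h2 (not_lt.2 h1)⟩
  let T := Nat.find hex
  have hT1 : ∀ i, T ≤ i → i < m → (1, i) ∈ K := Nat.find_spec hex
  have hTm : T ≤ m := Nat.find_min' hex fun i h1 h2 => absurd h2 (not_lt.2 h1)
  have hT2 : ∀ i, i < T → (0, i) ∈ K := by
    intro i hi
    have h1 : ¬ ∀ j, T - 1 ≤ j → j < m → (1, j) ∈ K := Nat.find_min hex (by omega)
    push Not at h1
    obtain ⟨j, hj1, hj2, hj3⟩ := h1
    have hj : j = T - 1 := by
      by_contra hne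
      exact hj3 (hT1 j (by omega) hj2)
    have h2 := hK 2 i j (Or.inl ⟨rfl, by omega, hj2⟩)
    simp only [end₁, end₂] at h2
    rcases h2 with h2 | h2
    · simpa using h2
    · exact absurd (by simpa using h2) hj3
  let h : ℕ → ℕ × ℕ := fun k =>
    if k < m then (if k < T then (0, k) else (1, k)) else
      if (2, k - m + 1) ∈ K then (2, k - m + 1) else
        if k - m + 1 < T then (1, k - m) else (0, k - m + 1)
  have hmap : Set.MapsTo h (range (2 * m - 1)) K := by
    intro k hk
    simp only [Finset.coe_range, Set.mem_Iio] at hk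
    simp only [h]
    split_ifs with h1 h2 h3 h4
    · exact hT2 k h2
    · exact hT1 k (by omega) h1
    · exact h3
    · have := hK 0 (k - m) (k - m + 1) (Or.inr (Or.inr ⟨rfl, rfl, by omega⟩))
      simp only [end₁, end₂] at this
      rcases this with h5 | h5
      · simpa using h5
      · exact absurd (by simpa using h5) h3
    · have := hK 1 (k - m + 1) (k - m + 1) (Or.inr (Or.inl ⟨rfl, rfl, by omega, by omega⟩))
      simp only [end₁, end₂] at this
      rcases this with h5 | h5
      · simpa using h5
      · exact absurd (by simpa using h5) h3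
  have hinj : Set.InjOn h (range (2 * m - 1)) := by
    intro a ha b hb hab
    simp only [Finset.coe_range, Set.mem_Iio] at ha hb
    simp only [h] at hab
    split_ifs at hab <;> simp only [Prod.mk.injEq] at hab <;> omega
  have := Finset.card_le_card_of_injOn h hmap hinj
  simpa using this

/-- The code of the private vertices of an edge. -/
def priv (m t i j : ℕ) : ℕ := m + t * (m * m) + (m * m - 1 - (m * i + j))

lemma code_lt {m i j : ℕ} (hi : i < m) (hj : j < m) : m * i + j < m * m := by
  calc m * i + j < m * i + m := by omega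
    _ = m * (i + 1) := by ring
    _ ≤ m * m := Nat.mul_le_mul_left m hi

lemma code_lt_code {m i j i' j' : ℕ} (hj : j < m) (h : i < i') : m * i + j < m * i' + j' := by
  calc m * i + j < m * i + m := by omega
    _ = m * (i + 1) := by ring
    _ ≤ m * i' := Nat.mul_le_mul_left m h
    _ ≤ m * i' + j' := by omega

lemma Edge.lt {m t i j : ℕ} (h : Edge m t i j) : i < m ∧ j < m ∧ t ≤ 2 := by
  rcases h with h | h | h <;> omega

lemma le_priv (m t i j : ℕ) : m ≤ priv m t i j := by
  unfold priv; omega

lemma priv_lt {m t i j : ℕ} (h : Edge m t i j) : priv m t i j < m + 3 * (m * m) := by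
  obtain ⟨h1, h2, h3⟩ := h.lt
  have h4 := code_lt h1 h2
  have h5 : t * (m * m) ≤ 2 * (m * m) := Nat.mul_le_mul_right _ h3
  unfold priv
  omega

/-- The private codes determine the edge, and they are decreasing in the ends. -/
lemma priv_inj {m t i j t' i' j' : ℕ} (h : Edge m t i j) (h' : Edge m t' i' j')
    (he : priv m t i j = priv m t' i' j') : t = t' ∧ i = i' ∧ j = j' := by
  obtain ⟨h1, h2, h3⟩ := h.lt
  obtain ⟨h1', h2', h3'⟩ := h'.lt
  have h4 := code_lt h1 h2
  have h4' := code_lt h1' h2'
  unfold priv at he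
  have ht : t = t' := by
    rcases lt_trichotomy t t' with hlt | rfl | hlt
    · exfalso
      have : (t + 1) * (m * m) ≤ t' * (m * m) := Nat.mul_le_mul_right _ hlt
      rw [add_mul, one_mul] at this
      omega
    · rfl
    · exfalso
      have : (t' + 1) * (m * m) ≤ t * (m * m) := Nat.mul_le_mul_right _ hlt
      rw [add_mul, one_mul] at this
      omega
  subst ht
  have hc : m * i + j = m * i' + j' := by omega
  have hi : i = i' := by
    rcases lt_trichotomy i i' with hlt | rfl | hlt
    · exact absurd hc (ne_of_lt (code_lt_code h2 hlt))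
    · rfl
    · exact absurd hc.symm (ne_of_lt (code_lt_code h2' hlt))
  subst hi
  exact ⟨rfl, rfl, by omega⟩

/-- The coordinates of the monomial of an edge. -/
def coord (m t i j l : ℕ) : ℕ :=
  if l = t ∨ 3 ≤ l then priv m t i j else if l = 0 ∨ (l = 1 ∧ t = 0) then i else j

lemma coord_lt {m t i j : ℕ} (h : Edge m t i j) (l : ℕ) : coord m t i j l < m + 3 * (m * m) := by
  obtain ⟨h1, h2, h3⟩ := h.lt
  unfold coord
  split_ifs
  · exact priv_lt h
  · omega
  · omega

open Classical in
/-- The tensor: the sum over all edges of the monomials of the edges. -/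
noncomputable def tensor (F : Type*) [Field F] (d m : ℕ) :
    Tensor F (fun _ : Fin d => m + 3 * (m * m)) :=
  fun x => if ∃ t i j, Edge m t i j ∧ ∀ l : Fin d, (x l : ℕ) = coord m t i j l then 1 else 0

lemma tensor_ne_zero {F : Type*} [Field F] {d m : ℕ}
    {x : Fin d → Fin (m + 3 * (m * m))} : tensor F d m x ≠ 0 ↔
      ∃ t i j, Edge m t i j ∧ ∀ l : Fin d, (x l : ℕ) = coord m t i j l := by
  unfold tensor
  split_ifs with h
  · simp [h]
  · simp [h]

lemma tensor_antichain {F : Type*} [Field F] {d m : ℕ} (hd : 3 ≤ d)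
    (x y : Fin d → Fin (m + 3 * (m * m))) (hx : tensor F d m x ≠ 0) (hy : tensor F d m y ≠ 0)
    (hxy : x ≤ y) : x = y := by
  rw [tensor_ne_zero] at hx hy
  obtain ⟨t, i, j, he, hx⟩ := hx
  obtain ⟨t', i', j', he', hy⟩ := hy
  have hle : ∀ l : Fin d, coord m t i j l ≤ coord m t' i' j' l := by
    intro l
    rw [← hx, ← hy]
    exact hxy l
  obtain ⟨h1, h2, h3⟩ := he.lt
  obtain ⟨h1', h2', h3'⟩ := he'.lt
  have htt : t = t' := by
    by_contra hne
    have h4 := hle ⟨t, by omega⟩
    have h5 : coord m t i j t = priv m t i j := by simp [coord]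
    have h6 : coord m t' i' j' t < m := by
      unfold coord
      rw [if_neg (by omega)]
      split_ifs <;> omega
    have h7 := le_priv m t i j
    simp only at h4
    omega
  subst htt
  have hp : priv m t i j ≤ priv m t i' j' := by
    have h4 := hle ⟨t, by omega⟩
    simpa [coord] using h4
  have hi : i ≤ i' := by
    rcases Nat.eq_zero_or_pos t with h0 | h0
    · have := hle ⟨1, by omega⟩
      simpa [coord, h0] using this
    · have := hle ⟨0, by omega⟩
      simpa [coord, h0.ne, h0.ne'] using this
  have hj : j ≤ j' := by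
    by_cases h0 : t = 2
    · have := hle ⟨1, by omega⟩
      simpa [coord, h0] using this
    · have := hle ⟨2, by omega⟩
      have h0' : ¬ (2 = t) := fun h => h0 h.symm
      simpa [coord, h0'] using this
  have hcc : m * i + j ≤ m * i' + j' := Nat.add_le_add (Nat.mul_le_mul_left m hi) hj
  have hc1 := code_lt h1 h2
  have hc2 := code_lt h1' h2'
  have hpe : priv m t i j = priv m t i' j' := by
    unfold priv at hp ⊢
    omega
  obtain ⟨-, rfl, rfl⟩ := priv_inj he he' hpe
  funext l
  exact Fin.ext ((hx l).trans (hy l).symm)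

/-- Every cover of the support by coordinate hyperplanes has at least `2 m - 1` members. -/
lemma cover_card {F : Type*} [Field F] {d m : ℕ}
    (S : Fin d → Finset (Fin (m + 3 * (m * m))))
    (hS : ∀ x, tensor F d m x ≠ 0 → ∃ l, x l ∈ S l) : 2 * m - 1 ≤ ∑ l, (S l).card := by
  classical
  -- the first end of the edge with a given private code
  let dec : ℕ → ℕ × ℕ := fun c =>
    if h : ∃ q : ℕ × ℕ × ℕ, Edge m q.1 q.2.1 q.2.2 ∧ priv m q.1 q.2.1 q.2.2 = c then
      end₁ h.choose.1 h.choose.2.1 else (0, 0)
  have hdec : ∀ t i j, Edge m t i j → dec (priv m t i j) = end₁ t i := by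
    intro t i j he
    have h : ∃ q : ℕ × ℕ × ℕ, Edge m q.1 q.2.1 q.2.2 ∧
        priv m q.1 q.2.1 q.2.2 = priv m t i j := ⟨(t, i, j), he, rfl⟩
    simp only [dec]
    rw [dif_pos h]
    obtain ⟨h1, h2, -⟩ := priv_inj h.choose_spec.1 he h.choose_spec.2
    rw [h1, h2]
  let φ : (Σ _ : Fin d, Fin (m + 3 * (m * m))) → ℕ × ℕ := fun q =>
    if (q.2 : ℕ) < m then ((q.1 : ℕ), (q.2 : ℕ)) else dec q.2
  let K : Finset (ℕ × ℕ) := ((univ : Finset (Fin d)).sigma S).image φ
  have hcard : K.card ≤ ∑ l, (S l).card := by
    refine Finset.card_image_le.trans ?_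
    rw [Finset.card_sigma]
  refine (vertexCover_card K ?_).trans hcard
  intro t i j he
  obtain ⟨h1, h2, h3⟩ := he.lt
  let x : Fin d → Fin (m + 3 * (m * m)) := fun l => ⟨coord m t i j l, coord_lt he l⟩
  have hx : tensor F d m x ≠ 0 := by
    rw [tensor_ne_zero]
    exact ⟨t, i, j, he, fun l => rfl⟩
  obtain ⟨l, hl⟩ := hS x hx
  have hK : φ ⟨l, x l⟩ ∈ K := Finset.mem_image_of_mem _ (by simp [hl])
  have hxl : ((x l : Fin (m + 3 * (m * m))) : ℕ) = coord m t i j l := rfl
  have hφ : φ ⟨l, x l⟩ = if coord m t i j l < m then ((l : ℕ), coord m t i j l) else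
    dec (coord m t i j l) := rfl
  rw [hφ] at hK
  by_cases hp : (l : ℕ) = t ∨ 3 ≤ (l : ℕ)
  · have hc : coord m t i j l = priv m t i j := by
      unfold coord; rw [if_pos hp]
    rw [hc, if_neg (not_lt.2 (le_priv m t i j)), hdec t i j he] at hK
    exact Or.inl hK
  · by_cases hf : (l : ℕ) = 0 ∨ ((l : ℕ) = 1 ∧ t = 0)
    · have hc : coord m t i j l = i := by
        unfold coord; rw [if_neg hp, if_pos hf]
      rw [hc, if_pos h1] at hK
      left
      have : end₁ t i = ((l : ℕ), i) := by
        unfold end₁
        rcases hf with hf | ⟨hf, hf'⟩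
        · have : ¬ t = 0 := fun h => hp (Or.inl (hf.trans h.symm))
          rw [if_neg this, hf]
        · rw [if_pos hf', hf]
      rw [this]; exact hK
    · have hc : coord m t i j l = j := by
        unfold coord; rw [if_neg hp, if_neg hf]
      rw [hc, if_pos h2] at hK
      right
      have : end₂ t j = ((l : ℕ), j) := by
        unfold end₂
        by_cases h4 : t = 2
        · rw [if_pos h4]
          have : (l : ℕ) = 1 := by omega
          rw [this]
        · rw [if_neg h4]
          have : (l : ℕ) = 2 := by omega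
          rw [this]
      rw [this]; exact hK

/-- For every edge `a_i b_j` the support has a cover by `2 m - 1` coordinate hyperplanes, one of
which is given by the private vertex of the edge in the coordinate `2`. -/
lemma exists_cover {F : Type*} [Field F] {d m : ℕ} (hd : 3 ≤ d) {i₀ j₀ : ℕ} (hij : i₀ ≤ j₀)
    (hj : j₀ < m) : ∃ S : Fin d → Finset (Fin (m + 3 * (m * m))),
      (∀ x, tensor F d m x ≠ 0 → ∃ l, x l ∈ S l) ∧ ∑ l, (S l).card ≤ 2 * m - 1 ∧
      ∀ c : Fin (m + 3 * (m * m)), (c : ℕ) = priv m 2 i₀ j₀ → c ∈ S ⟨2, by omega⟩ := by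
  classical
  let R : ℕ → Finset ℕ := fun l =>
    if l = 0 then (range (j₀ + 1)).erase i₀ else if l = 1 then (Ico i₀ m).erase j₀ else
      if l = 2 then insert (priv m 2 i₀ j₀) (Ico 1 (i₀ + 1) ∪ Ico (j₀ + 1) m) else ∅
  let S : Fin d → Finset (Fin (m + 3 * (m * m))) := fun l => univ.filter fun c => (c : ℕ) ∈ R l
  have hmem : ∀ l c, c ∈ S l ↔ (c : ℕ) ∈ R l := by
    intro l c; simp [S]
  have hcard : ∀ l, (S l).card ≤ (R l).card := by
    intro l
    refine Finset.card_le_card_of_injOn (fun c => (c : ℕ)) ?_ ?_
    · intro c hc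
      exact (hmem l c).1 hc
    · intro a _ b _ h
      exact Fin.ext h
  have hR0 : (R 0).card = j₀ := by
    simp only [R, if_true]
    rw [Finset.card_erase_of_mem (by simp; omega)]
    simp
  have hR1 : (R 1).card = m - i₀ - 1 := by
    simp only [R, one_ne_zero, if_false, if_true]
    rw [Finset.card_erase_of_mem (by simp; omega)]
    simp
  have hR2 : (R 2).card ≤ i₀ + (m - 1 - j₀) + 1 := by
    simp only [R, OfNat.ofNat_ne_zero, OfNat.ofNat_ne_one, if_false, if_true]
    refine (Finset.card_insert_le _ _).trans ?_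
    have := Finset.card_union_le (Ico 1 (i₀ + 1)) (Ico (j₀ + 1) m)
    simp only [Nat.card_Ico] at this
    omega
  have hR3 : ∀ l, 3 ≤ l → (R l).card = 0 := by
    intro l hl
    simp only [R]
    rw [if_neg (by omega), if_neg (by omega), if_neg (by omega)]
    simp
  refine ⟨S, ?_, ?_, ?_⟩
  · intro x hx
    rw [tensor_ne_zero] at hx
    obtain ⟨t, i, j, he, hx⟩ := hx
    have hm0 : ∀ l : Fin d, coord m t i j l ∈ R l → ∃ l, x l ∈ S l := by
      intro l hl
      refine ⟨l, ?_⟩
      rw [hmem, hx]
      exact hl
    rcases he with ⟨rfl, h1, h2⟩ | ⟨rfl, rfl, h1, h2⟩ | ⟨rfl, rfl, h2⟩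
    · by_cases ha : i ∈ R 0
      · refine hm0 ⟨0, by omega⟩ ?_
        simpa [coord] using ha
      · by_cases hb : j ∈ R 1
        · refine hm0 ⟨1, by omega⟩ ?_
          simpa [coord] using hb
        · refine hm0 ⟨2, by omega⟩ ?_
          simp only [R, if_true, Finset.mem_erase, Finset.mem_range, one_ne_zero, if_false,
            Finset.mem_Ico] at ha hb
          have hi : i = i₀ := by omega
          have hj' : j = j₀ := by omega
          subst hi
          subst hj'
          simp [coord, R]
    · by_cases ha : i ∈ R 0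
      · refine hm0 ⟨0, by omega⟩ ?_
        simpa [coord] using ha
      · refine hm0 ⟨2, by omega⟩ ?_
        simp only [R, if_true, Finset.mem_erase, Finset.mem_range] at ha
        have : coord m 1 i i 2 = i := by simp [coord]
        simp only [this, R, OfNat.ofNat_ne_zero, OfNat.ofNat_ne_one, if_false, if_true,
          Finset.mem_insert, Finset.mem_union, Finset.mem_Ico]
        omega
    · by_cases hb : i ∈ R 1
      · refine hm0 ⟨1, by omega⟩ ?_
        simpa [coord] using hb
      · refine hm0 ⟨2, by omega⟩ ?_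
        simp only [R, one_ne_zero, if_false, if_true, Finset.mem_erase, Finset.mem_Ico] at hb
        have : coord m 0 i (i + 1) 2 = i + 1 := by simp [coord]
        simp only [this, R, OfNat.ofNat_ne_zero, OfNat.ofNat_ne_one, if_false, if_true,
          Finset.mem_insert, Finset.mem_union, Finset.mem_Ico]
        omega
  · have h1 : ∑ l : Fin d, (S l).card ≤ ∑ l : Fin d, (R l).card :=
      Finset.sum_le_sum fun l _ => hcard l
    have h2 : ∑ l : Fin d, (R l).card = ∑ l ∈ range d, (R l).card := by
      rw [Finset.sum_range]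
    have h3 : ∑ l ∈ range d, (R l).card = ∑ l ∈ range 3, (R l).card := by
      symm
      refine Finset.sum_subset (Finset.range_subset_range.2 hd) fun l _ hl => ?_
      exact hR3 l (by simpa using hl)
    rw [h2, h3] at h1
    simp only [Finset.sum_range_succ, Finset.sum_range_zero, zero_add] at h1
    omega
  · intro c hc
    rw [hmem, hc]
    simp [R]

/-- The number of the edges `a_i b_j`. -/
lemma card_pairs (m : ℕ) :
    (((range m).sigma fun j => range (j + 1)).image fun q : Σ _ : ℕ, ℕ => priv m 2 q.2 q.1).card =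
      m * (m + 1) / 2 := by
  rw [Finset.card_image_of_injOn, Finset.card_sigma]
  · simp only [Finset.card_range]
    have h : ∀ m : ℕ, (∑ x ∈ range m, (x + 1)) * 2 = m * (m + 1) := by
      intro m
      induction m with
      | zero => simp
      | succ k ih => rw [Finset.sum_range_succ, add_mul, ih]; ring
    have := h m
    omega
  · rintro ⟨j, i⟩ h ⟨j', i'⟩ h' he
    simp only [Finset.coe_sigma, Finset.coe_range, Set.mem_sigma_iff, Set.mem_Iio] at h h'
    have e1 : Edge m 2 i j := Or.inl ⟨rfl, by omega, by omega⟩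
    have e2 : Edge m 2 i' j' := Or.inl ⟨rfl, by omega, by omega⟩
    obtain ⟨-, rfl, rfl⟩ := priv_inj e1 e2 he
    rfl

/-- **Theorem.** Let `d ≥ 3`, let `F` be a field and let `m ≥ 1`. There is a tensor `T` of order `d`
over `F` of slice rank `k = 2 m - 1` with the following property: if `A_j` are subspaces such that
`u_{j,i} ∈ A_j` for every slice rank decomposition of `T` of length `k` and all `j`, `i`, then some
`A_j` has dimension at least `m (m + 1) / 2`. -/
theorem result {d : ℕ} (hd : 3 ≤ d) (F : Type*) [Field F] {m : ℕ} (hm : 1 ≤ m) :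
    ∃ (n : Fin d → ℕ) (T : Tensor F n), (∀ j, 1 ≤ n j) ∧ sliceRank T = 2 * m - 1 ∧
      ∀ A : ∀ j, Submodule F (Fin (n j) → F),
        (∀ (D : SliceDecomp T (2 * m - 1)) (j : Fin d) (i : Fin (D.s j)), D.u j i ∈ A j) →
          ∃ j, m * (m + 1) / 2 ≤ finrank F (A j) := by
  classical
  have h2d : 2 < d := hd
  -- decompositions of length `2 m - 1` from covers
  have key : ∀ i₀ j₀, i₀ ≤ j₀ → j₀ < m → ∃ D : SliceDecomp (tensor F d m) (2 * m - 1),
      ∀ c : Fin (m + 3 * (m * m)), (c : ℕ) = priv m 2 i₀ j₀ →
        ∃ r, D.u ⟨2, h2d⟩ r = Pi.single c 1 := by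
    intro i₀ j₀ h1 h2
    obtain ⟨S, hS1, hS2, hS3⟩ := exists_cover (F := F) hd h1 h2
    obtain ⟨D, hD⟩ := exists_decomp_of_cover (tensor F d m) S hS1
    have hlen : ∑ l, (S l).card = 2 * m - 1 := le_antisymm hS2 (cover_card S hS1)
    rw [← hlen]
    exact ⟨D, fun c hc => hD _ c (hS3 c hc)⟩
  refine ⟨fun _ => m + 3 * (m * m), tensor F d m, fun _ => le_add_right hm, ?_, ?_⟩
  · obtain ⟨D, -⟩ := key 0 0 le_rfl hm
    refine le_antisymm (Nat.sInf_le ⟨D⟩) (le_csInf ⟨_, ⟨D⟩⟩ ?_)
    rintro k ⟨D'⟩
    obtain ⟨S, hS1, hS2⟩ := exists_cover_of_decomp (tensor_antichain hd) D'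
    exact (cover_card S hS2).trans hS1
  · intro A hA
    refine ⟨⟨2, h2d⟩, ?_⟩
    let P : Finset ℕ :=
      ((range m).sigma fun j => range (j + 1)).image fun q : Σ _ : ℕ, ℕ => priv m 2 q.2 q.1
    have hP : ∀ c ∈ P, c < m + 3 * (m * m) ∧ ∀ c' : Fin (m + 3 * (m * m)), (c' : ℕ) = c →
        (Pi.single c' (1 : F) : Fin (m + 3 * (m * m)) → F) ∈ A ⟨2, h2d⟩ := by
      intro c hc
      obtain ⟨⟨j, i⟩, hq, rfl⟩ := Finset.mem_image.1 hc
      simp only [Finset.mem_sigma, Finset.mem_range] at hq
      have he : Edge m 2 i j := Or.inl ⟨rfl, by omega, by omega⟩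
      refine ⟨priv_lt he, fun c' hc' => ?_⟩
      obtain ⟨D, hD⟩ := key i j (by omega) hq.1
      obtain ⟨r, hr⟩ := hD c' hc'
      rw [← hr]
      exact hA D _ r
    let g : P → A ⟨2, h2d⟩ := fun c => ⟨_, (hP c c.2).2 ⟨c, (hP c c.2).1⟩ rfl⟩
    have hg : LinearIndependent F g := by
      apply LinearIndependent.of_comp (A ⟨2, h2d⟩).subtype
      have h1 : ((A ⟨2, h2d⟩).subtype ∘ g : P → (Fin (m + 3 * (m * m)) → F)) =
          (Pi.basisFun F (Fin (m + 3 * (m * m)))) ∘ fun c : P => ⟨c, (hP c c.2).1⟩ := by
        funext c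
        simp [g]
      rw [h1]
      refine (Pi.basisFun F (Fin (m + 3 * (m * m)))).linearIndependent.comp _ ?_
      intro a b hab
      exact Subtype.ext (congrArg Fin.val hab)
    have h2 := hg.fintype_card_le_finrank
    rw [Fintype.card_coe, card_pairs] at h2
    exact h2

end Pool.Agent.Results.MP_626f3c_co.QuadraticMany
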